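import Pool.Agent.Helper74.BDX.Fold
import Pool.Agent.Helper71.TL.Main
import Pool.Agent.Helper63.BDX.Chain
import Pool.Agent.Helper15.BDX.Num
import Pool.Agent.Helper99.BD.ChainUp
import Pool.Agent.Helper99.BD.Zero

/-!
# Level 0: chain systems over the fields `F^(l)` (Helper74, exact range)
-/

set_option autoImplicit false

open MvPolynomial Module Filter

namespace ZC

universe u

/-- a positive functional on the degrees -/
def posf (D : ℕ) : (Fin D → ℤ) →+ ℤ where
  toFun c := ∑ i : Fin D, ((i : ℕ) + 1 : ℤ) * ((D : ℤ) - (i : ℕ)) * c i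
  map_zero' := by simp
  map_add' a b := by
    rw [← Finset.sum_add_distrib]
    refine Finset.sum_congr rfl fun i _ => ?_
    rw [Pi.add_apply]
    ring

theorem posf_ep {D k : ℕ} (hk : k ≤ D + 1) : posf D (ep D k) = (k : ℤ) * ((D : ℤ) + 1 - k) := by
  change ∑ i : Fin D, ((i : ℕ) + 1 : ℤ) * ((D : ℤ) - (i : ℕ)) * ep D k i = _
  by_cases h : 1 ≤ k ∧ k ≤ D
  · rw [Finset.sum_eq_single (⟨k - 1, by omega⟩ : Fin D)]
    · have h1 : ((k - 1 : ℕ) : ℤ) = (k : ℤ) - 1 := by
        rw [Nat.cast_sub h.1, Nat.cast_one]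
      have h2 : k - 1 + 1 = k := by omega
      simp only [ep, h2, if_true, h1]
      ring
    · intro i _ hi
      have h1 : ¬ ((i : ℕ) + 1 = k) := by
        intro h2
        apply hi
        ext
        simp only
        omega
      simp only [ep, h1, if_false, mul_zero]
    · intro h1
      exact absurd (Finset.mem_univ _) h1
  · rw [Finset.sum_eq_zero]
    · have h1 : k = 0 ∨ k = D + 1 := by omega
      rcases h1 with rfl | rfl
      · simp
      · push_cast
        ring
    · intro i _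
      have h1 : ¬ ((i : ℕ) + 1 = k) := by omega
      simp only [ep, h1, if_false, mul_zero]

theorem posf_al {D k : ℕ} (hk : 1 ≤ k) (hk' : k ≤ D) : posf D (al D k) = 2 := by
  obtain ⟨m, rfl⟩ : ∃ m, k = m + 1 := ⟨k - 1, by omega⟩
  rw [al, map_sub, map_sub, map_nsmul, posf_ep (by omega), posf_ep (by omega), posf_ep (by omega)]
  simp only [Nat.add_sub_cancel, nsmul_eq_mul]
  push_cast
  ring

theorem posf_wt {D N th : ℕ} (hD : 0 < D) (s : CVar D N th) : 0 < posf D (wt s) := by
  rcases s with ⟨k, b⟩ | k | i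
  · simp only [wt]
    rw [posf_ep (by omega)]
    have := k.2
    have h1 : ((k : ℕ) : ℤ) < D := by exact_mod_cast this
    have h2 : (0 : ℤ) ≤ ((k : ℕ) : ℤ) := Int.natCast_nonneg _
    push_cast
    exact mul_pos (by omega) (by omega)
  · simp only [wt]
    have := k.2
    rw [posf_al (by omega) (by omega)]
    norm_num
  · simp only [wt]
    rw [posf_al hD le_rfl]
    norm_num

/-- the unknowns of a level -/
def blk {D N th : ℕ} (k : Fin D) : Set (CVar D N th) := {s | lev s = (k : ℕ) + 1}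

theorem ep_nonneg (D k : ℕ) (i : Fin D) : 0 ≤ ep D k i := by
  unfold ep
  split_ifs <;> norm_num

theorem wt_nonpos {D N th : ℕ} (k : Fin D) (s : CVar D N th) (hs : s ∉ blk k) :
    wt s k ≤ 0 := by
  have hs' : lev s ≠ (k : ℕ) + 1 := hs
  have hal : ∀ m, (k : ℕ) + 1 ≠ m → al D m k ≤ 0 := by
    intro m hm
    have h1 : ep D m k = 0 := by
      unfold ep
      rw [if_neg hm]
    have h2 := ep_nonneg D (m - 1) k
    have h3 := ep_nonneg D (m + 1) k
    simp only [al, Pi.sub_apply, Pi.smul_apply, h1, smul_zero]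
    omega
  rcases s with ⟨i, b⟩ | i | i
  · simp only [wt, lev] at hs' ⊢
    unfold ep
    rw [if_neg (fun h => hs' h.symm)]
  · simp only [wt, lev] at hs' ⊢
    exact hal _ (fun h => hs' h.symm)
  · simp only [wt, lev] at hs' ⊢
    exact hal _ (fun h => hs' h.symm)

/-- **Chain systems over a field all of whose finite extensions have degrees divisible by `l` and
which is pseudo algebraically closed.** -/
theorem hasZeros_of_cuts {l : ℕ} (hl : l.Prime) {F : Type u} [Field F]
    (hF : ∀ (E : Type u) [Field E] [Algebra F E] (a : E), IsAlgebraic F a →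
      a ∉ (algebraMap F E).range → l ∣ finrank F (IntermediateField.adjoin F {a}))
    (hP : TL.AffPAC F) {D N th r : ℕ} (hD : 0 < D) (d E : Fin r → ℕ) (hd : ∀ a, 0 < d a)
    (hk : ∀ k < D, ∑ a, E a * (∑ j ∈ Finset.Ioc (d a * k) (d a * D), l ^ padicValNat l j +
        ∑ q ∈ Finset.Ioo 0 (d a), l ^ padicValNat l (q * D)) <
      N * (∑ i ∈ Finset.Ioc k D, l ^ padicValNat l i) + th * l ^ padicValNat l (D + 1)) :
    HasZeros D N th d E F := by
  classical
  intro g hg
  by_contra hno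
  let T : List (BDX.Eqs D d E) := Finset.univ.toList
  let G : BDX.Eqs D d E → MvPolynomial (CVar D N th) F := fun q => g q.1 ((q.2.1 : ℕ) + 1) q.2.2
  let L : List (MvPolynomial (CVar D N th) F × (Fin D → ℤ)) :=
    T.map fun q => (G q, BDX.eqdeg D d E q)
  have hrange : ∀ q : BDX.Eqs D d E, 0 < (q.2.1 : ℕ) + 1 ∧ (q.2.1 : ℕ) + 1 < d q.1 * (D + 1) := by
    intro q
    have h1 := q.2.1.2
    have h2 : 0 < d q.1 * (D + 1) := Nat.mul_pos (hd _) (Nat.succ_pos D)
    omega
  have hG : ∀ q, IsWeightedHomogeneous (wt : CVar D N th → (Fin D → ℤ)) (G q)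
      (BDX.eqdeg D d E q) := fun q => hg q.1 _ q.2.2 (hrange q).1 (hrange q).2
  let Good : Ideal (MvPolynomial (CVar D N th) F) → Prop := fun I =>
    ∀ x : CVar D N th → F, (∀ k, ∃ s ∈ blk k, x s ≠ 0) → ∃ f ∈ I, eval x f ≠ 0
  have hw : TL.FinW (wt : CVar D N th → (Fin D → ℤ)) := TL.finW_of_pos (posf D) (posf_wt hD)
  have hfold := TL.fold_zero (F := F) hw l (Fil := (atTop : Filter (Fin D → ℤ))) TL.tendsto_sub Good
    (fun I J hIJ hI x hx => by
      obtain ⟨f, hf, hfx⟩ := hI x hx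
      exact ⟨f, hIJ hf, hfx⟩)
    (fun I hI h0 => by
      filter_upwards [TL.hil_dvd (posf D) (posf_wt hD) blk wt_nonpos hF hP I hI h0] with n hn
      exact (ZMod.natCast_eq_zero_iff _ _).2 hn)
    L (by
      intro p hp
      obtain ⟨q, -, rfl⟩ := List.mem_map.1 hp
      exact hG q)
    ⊥ TL.hom_bot (by
      intro x hx
      by_contra hcon
      push Not at hcon
      refine hno ⟨x, ?_, ?_⟩
      · intro k hk1 hk2
        obtain ⟨s, hs, hxs⟩ := hx ⟨k - 1, by omega⟩
        refine ⟨s, ?_, hxs⟩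
        have hs' : lev s = (k - 1) + 1 := hs
        rw [hs']
        omega
      · intro a j i hj1 hj2
        have h1 : j = (j - 1) + 1 := by omega
        rw [h1]
        refine hcon _ (Ideal.mem_sup_right (Ideal.subset_span ?_))
        refine ⟨(G ⟨a, ⟨j - 1, by omega⟩, i⟩, BDX.eqdeg D d E ⟨a, ⟨j - 1, by omega⟩, i⟩), ?_, rfl⟩
        exact List.mem_map.2 ⟨_, Finset.mem_toList.2 (Finset.mem_univ _), rfl⟩)
  rw [TL.deep_iff] at hfold
  obtain ⟨C, hC⟩ := hfold
  obtain ⟨δ, hδ, hne⟩ := BDX.chain_nonvanishing hl hD d E hd hk T (List.Perm.refl _) C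
  apply hne
  have h1 := hC δ hδ
  have h2 : L.map Prod.snd = T.map (BDX.eqdeg D d E) := by
    simp only [L, List.map_map]
    rfl
  rw [h2] at h1
  have h3 : (fun n => (TL.hil (wt : CVar D N th → (Fin D → ℤ))
      (⊥ : Ideal (MvPolynomial (CVar D N th) F)) n : ZMod l)) =
      fun δ => (BDX.hcount (wt : CVar D N th → (Fin D → ℤ)) δ : ZMod l) := by
    funext n
    rw [TL.hil_bot hw]
    rfl
  rw [h3] at h1
  exact h1

/-- **Level 0.** -/
theorem chainZero_of_affPAC {l : ℕ} (hl : l.Prime) {F : Type u} [Field F]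
    (hF : ∀ (E : Type u) [Field E] [Algebra F E] (a : E), IsAlgebraic F a →
      a ∉ (algebraMap F E).range → l ∣ finrank F (IntermediateField.adjoin F {a}))
    (hP : TL.AffPAC F) {n r : ℕ} (d : Fin r → ℕ) (hd : ∀ a, 0 < d a)
    (hn : ∑ a, d a ^ 2 ≤ n) : ChainZero n d F := by
  obtain ⟨D, hD, hcut⟩ := cut_numbers' hl d hd hn
  refine ⟨D, hD, fun m c hm => ?_⟩
  obtain ⟨S, hS⟩ := hcut m c hm
  exact ⟨S, hasZeros_of_cuts hl hF hP (by omega) d _ hd hS⟩

/-- **Level 0 for the fields `F^(l)`.** -/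
theorem exists_chainZero (κ : Type u) [Field κ] [Finite κ] {l : ℕ} (hl : l.Prime) {n r : ℕ}
    (d : Fin r → ℕ) (hd : ∀ a, 0 < d a) (hn : ∑ a, d a ^ 2 ≤ n) :
    ∃ (Fl : Type u) (_ : Field Fl) (_ : Algebra κ Fl), PrimeTo l κ Fl ∧
      Algebra.IsAlgebraic κ Fl ∧ ChainZero n d Fl := by
  obtain ⟨Fl, _, _, h1, h2, h3, h4, h5, h6, -⟩ :=
    Pool.Agent.Helper15.FKS.exists_primeField κ hl
  exact ⟨Fl, inferInstance, inferInstance, h1, h2,
    chainZero_of_affPAC hl (fun E _ _ a ha har => dvd_finrank_of_closed h6 E a ha har)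
      (TL.affPAC_of_plane (planePAC_of_primeClosed hl ⟨h5, h6⟩)) d hd hn⟩

end ZC
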