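import Pool.Agent.Helper71.TL.Hil
import Pool.Agent.Helper63.BDX.Defs

/-!
# Peeling off the equations one after the other (Helper74, exact range)
-/

set_option autoImplicit false

open MvPolynomial Module Filter

namespace TL

open ZC.BDX

section dif

variable {M R : Type*} [AddCommGroup M] [AddCommGroup R]

theorem dif_comm (c c' : M) (h : M → R) : dif c (dif c' h) = dif c' (dif c h) := by
  funext n
  simp only [dif]
  have h1 : n - c - c' = n - c' - c := by abel
  rw [h1]
  abel

theorem foldr_dif_comm (L : List M) (c : M) (h : M → R) :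
    L.foldr dif (dif c h) = dif c (L.foldr dif h) := by
  induction L with
  | nil => rfl
  | cons a L ih => rw [List.foldr_cons, ih, dif_comm, List.foldr_cons]

theorem foldr_dif_add (L : List M) (h h' : M → R) :
    L.foldr dif (fun n => h n + h' n) = fun n => L.foldr dif h n + L.foldr dif h' n := by
  induction L with
  | nil => rfl
  | cons a L ih =>
    rw [List.foldr_cons, ih]
    funext n
    simp only [dif, List.foldr_cons]
    abel

theorem foldr_dif_shift (L : List M) (c : M) (h : M → R) :
    L.foldr dif (fun n => h (n - c)) = fun n => L.foldr dif h (n - c) := by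
  induction L with
  | nil => rfl
  | cons a L ih =>
    rw [List.foldr_cons, ih]
    funext n
    simp only [dif, List.foldr_cons]
    have h1 : n - a - c = n - c - a := by abel
    rw [h1]

theorem dif_eventually {Fil : Filter M} (inv : ∀ c : M, Tendsto (fun n => n - c) Fil Fil)
    (c : M) {h : M → R} (hh : ∀ᶠ n in Fil, h n = 0) : ∀ᶠ n in Fil, dif c h n = 0 := by
  filter_upwards [hh, (inv c).eventually hh] with n h1 h2
  simp only [dif]
  rw [h1, h2, sub_zero]

end dif

universe u

variable {F : Type u} [Field F] {σ : Type} {M : Type} [AddCommGroup M] {w : σ → M}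

/-- **Peeling off the equations.**  `Good I` means that there is no stable zero. -/
theorem fold_zero [Finite σ] (hw : FinW w) (l : ℕ) {Fil : Filter M}
    (inv : ∀ c : M, Tendsto (fun n => n - c) Fil Fil) (Good : Ideal (MvPolynomial σ F) → Prop)
    (mono : ∀ I J, I ≤ J → Good I → Good J)
    (base : ∀ I, Hom w I → Good I → ∀ᶠ n in Fil, (hil w I n : ZMod l) = 0)
    (L : List (MvPolynomial σ F × M)) (hL : ∀ p ∈ L, IsWeightedHomogeneous w p.1 p.2)
    (J : Ideal (MvPolynomial σ F)) (hJ : Hom w J)
    (hg : Good (J ⊔ Ideal.span {g | ∃ p ∈ L, g = p.1})) :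
    ∀ᶠ n in Fil, ((L.map Prod.snd).foldr dif fun n => (hil w J n : ZMod l)) n = 0 := by
  induction L generalizing J with
  | nil =>
    have h1 : {g : MvPolynomial σ F | ∃ p ∈ ([] : List (MvPolynomial σ F × M)), g = p.1} = ∅ := by
      ext g; simp
    rw [h1, Ideal.span_empty, sup_bot_eq] at hg
    exact base J hJ hg
  | cons p L ih =>
    have hset : {g : MvPolynomial σ F | ∃ q ∈ p :: L, g = q.1} =
        insert p.1 {g | ∃ q ∈ L, g = q.1} := by
      ext g
      simp only [Set.mem_setOf_eq, List.mem_cons, Set.mem_insert_iff]
      constructor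
      · rintro ⟨q, rfl | hq, rfl⟩
        · exact Or.inl rfl
        · exact Or.inr ⟨q, hq, rfl⟩
      · rintro (rfl | ⟨q, hq, rfl⟩)
        · exact ⟨p, Or.inl rfl, rfl⟩
        · exact ⟨q, Or.inr hq, rfl⟩
    have hspan : Ideal.span {g : MvPolynomial σ F | ∃ q ∈ p :: L, g = q.1} =
        Ideal.span {p.1} ⊔ Ideal.span {g | ∃ q ∈ L, g = q.1} := by
      rw [hset, Ideal.span_insert]
    have hp : IsWeightedHomogeneous w p.1 p.2 := hL p List.mem_cons_self
    have hL' : ∀ q ∈ L, IsWeightedHomogeneous w q.1 q.2 := fun q hq =>
      hL q (List.mem_cons_of_mem _ hq)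
    revert hJ hg
    induction J using WellFoundedGT.induction with
    | ind J IH =>
      intro hJ hg
      have hhom : Hom w (J ⊔ Ideal.span {p.1}) := hJ.sup (hom_span _ (by
        rintro f hf
        rw [Set.mem_singleton_iff] at hf
        rw [hf]
        exact ⟨p.2, hp⟩))
      by_cases h1 : p.1 ∈ J
      · -- the equation is already in `J`
        have h2 : J ⊔ Ideal.span {g : MvPolynomial σ F | ∃ q ∈ p :: L, g = q.1} =
            J ⊔ Ideal.span {g | ∃ q ∈ L, g = q.1} := by
          rw [hspan, ← sup_assoc, sup_eq_left.2 ((Ideal.span_singleton_le_iff_mem _).2 h1)]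
        rw [h2] at hg
        have h3 := ih hL' J hJ hg
        rw [List.map_cons, List.foldr_cons]
        exact dif_eventually inv p.2 h3
      · by_cases h2 : col J p.1 = J
        · -- a nonzerodivisor
          rw [hspan, ← sup_assoc] at hg
          have h3 := ih hL' (J ⊔ Ideal.span {p.1}) hhom hg
          have h4 : dif p.2 (fun n => (hil w J n : ZMod l)) =
              fun n => (hil w (J ⊔ Ideal.span {p.1}) n : ZMod l) := by
            funext n
            have h5 := hil_add' hw hJ hp n
            rw [h2] at h5
            simp only [dif]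
            rw [h5]
            push_cast
            ring
          rw [List.map_cons, List.foldr_cons, ← foldr_dif_comm, h4]
          exact h3
        · -- a zero divisor
          have hJc : J ≤ col J p.1 := fun g hg => by
            rw [mem_col]
            exact Ideal.mul_mem_left _ _ hg
          have h3 : J < col J p.1 := lt_of_le_of_ne hJc (Ne.symm h2)
          have h4 : J < J ⊔ Ideal.span {p.1} := by
            refine lt_of_le_of_ne le_sup_left fun h => h1 ?_
            rw [h]
            exact Ideal.mem_sup_right (Ideal.mem_span_singleton_self _)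
          have h5 := IH _ h4 hhom (mono _ _ (sup_le_sup_right h4.le _) hg)
          have h6 := IH _ h3 (hJ.col hp) (mono _ _ (sup_le_sup_right h3.le _) hg)
          have h7 : (fun n => (hil w J n : ZMod l)) = fun n =>
              (hil w (J ⊔ Ideal.span {p.1}) n : ZMod l) +
                (hil w (col J p.1) (n - p.2) : ZMod l) := by
            funext n
            rw [hil_add' hw hJ hp n]
            push_cast
            ring
          rw [h7, foldr_dif_add, foldr_dif_shift _ p.2 (fun n => (hil w (col J p.1) n : ZMod l))]
          filter_upwards [h5, (inv p.2).eventually h6] with n h8 h9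
          rw [h8, h9, add_zero]

/-- The Hilbert function of the polynomial ring. -/
theorem hil_bot (hw : FinW w) (n : M) :
    hil w (⊥ : Ideal (MvPolynomial σ F)) n = Nat.card {a : σ →₀ ℕ // Finsupp.weight w a = n} := by
  have h1 : part w (⊥ : Ideal (MvPolynomial σ F)) n = ⊥ := by
    rw [eq_bot_iff]
    intro g hg
    rw [mem_part] at hg
    exact hg.1
  rw [hil, h1, finrank_bot, Nat.sub_zero, weightedHomogeneousSubmodule_eq_finsupp_supported]
  have h2 := (hw n).to_subtype
  have h3 := Fintype.ofFinite {d : σ →₀ ℕ | Finsupp.weight w d = n}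
  rw [(AddMonoidAlgebra.supportedEquivFinsupp (R := F) (S := F)
    {d : σ →₀ ℕ | Finsupp.weight w d = n}).finrank_eq, Module.finrank_finsupp_self]
  exact (Nat.card_eq_fintype_card (α := {d : σ →₀ ℕ | Finsupp.weight w d = n})).symm

end TL
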